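import Pool.Agent.W207.SW.SpecE
import Pool.Agent.W318.SW.Fext

/-! # The gap extends, even version (adapted from the odd version of helper318) -/

set_option autoImplicit false

open Filter Topology Set MeasureTheory
open scoped BigOperators FourierTransform ContDiff SchwartzMap

namespace Pool.Agent.W460.SW

open W207.PR (ct dt)
open W207.SW
open Pool.Agent.W578.PR (exists_schwartz schwartz_decay re_fourier im_fourier)
open Pool.Agent.W318.SW (decL tst_cont tst_int tend_exp)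

theorem ct_cont {Λ : ℝ} {ψ : ℝ → ℝ} (hψ : TstL Λ ψ) : Continuous (ct ψ) := by
  obtain ⟨μ, -, -, hμ⟩ := hψ.supp
  obtain ⟨F, hF⟩ := exists_schwartz ψ hψ.smooth ⟨μ, hμ⟩
  have hct : ct ψ = fun x => ((𝓕 F : 𝓢(ℝ, ℂ)) x).re := by
    funext x
    rw [SchwartzMap.fourier_coe, re_fourier F ψ hF x]
    rfl
  rw [hct]
  exact Complex.continuous_re.comp (𝓕 F : 𝓢(ℝ, ℂ)).continuous

/-- `ct ψ · E` is integrable -/
theorem int_ctE {Λ C0 : ℝ} {ψ E : ℝ → ℝ} (hC0 : 0 < C0) (hψ : TstL Λ ψ) (hE : Gr E C0) :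
    IntegrableOn (fun u => ct ψ u * E u) (Ioi 0) := by
  obtain ⟨-, hd⟩ := decL hψ
  obtain ⟨K, hK, hKb⟩ := hd 3
  have h1 : IntegrableOn (fun u : ℝ => K * C0 * (1 + u ^ 2)⁻¹) (Ioi 0) :=
    (integrable_inv_one_add_sq.const_mul (K * C0)).integrableOn
  refine Integrable.mono' h1 ((ct_cont hψ).measurable.mul hE.1).aestronglyMeasurable ?_
  filter_upwards [hE.2, ae_restrict_mem measurableSet_Ioi] with u hu hu0
  have hu0' : 0 < u := hu0
  have h2 := (hKb u).1
  rw [abs_of_pos hu0'] at h2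
  rw [Real.norm_eq_abs, abs_mul]
  have h3 : |ct ψ u| ≤ K / (1 + u) ^ 3 := by
    rw [le_div_iff₀ (by positivity)]
    exact h2
  calc |ct ψ u| * |E u| ≤ K / (1 + u) ^ 3 * (C0 * (1 + u)) := by
        exact mul_le_mul h3 hu (abs_nonneg _) (by positivity)
    _ = K * C0 * ((1 + u) ^ 2)⁻¹ := by
        field_simp
    _ ≤ K * C0 * (1 + u ^ 2)⁻¹ := by
        apply mul_le_mul_of_nonneg_left _ (by positivity)
        apply inv_anti₀ (by positivity)
        nlinarith

theorem fexte : S_SMLE → S_FFE → S_PLG → S_FEXTE := by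
  intro hSML hFF hPLG C0 C δ ε Λ hC0 hC hδ hε hΛ
  obtain ⟨K1, κ, n, hK1, hκ, hS⟩ := hSML C0 C δ ε Λ hC0 hC hδ hε hΛ
  obtain ⟨KF, hKF, hF⟩ := hFF C0 hC0
  obtain ⟨r, c', K', hr, hc', hK', hP⟩ := hPLG Λ κ hΛ hκ
  refine ⟨r, hr, fun E hE hG hH ψ hψ => ?_⟩
  have hint := int_ctE hC0 hψ hE
  have hψi := tst_int hψ
  obtain ⟨μ, hμ0, hμ1, hμ⟩ := hψ.supp
  have hlim : Tendsto (fun R : ℝ => ∫ u in (0 : ℝ)..R, ct ψ u * E u) atTop
      (𝓝 (∫ u in Ioi (0 : ℝ), ct ψ u * E u)) :=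
    intervalIntegral_tendsto_integral_Ioi 0 hint tendsto_id
  set B : ℝ := ∫ ξ : ℝ, |ψ ξ| with hB
  have hB0 : 0 ≤ B := integral_nonneg fun ξ => abs_nonneg _
  -- the bound
  have hbd : ∀ R : ℝ, 1 ≤ R → HoleE E R δ ε C → |∫ u in (0 : ℝ)..R, ct ψ u * E u| ≤
      B * (K' * (K1 + KF)) * ((1 + R) ^ (n + 2) * Real.exp (-(c' * R))) := by
    intro R hR hHole
    have hR0 : 0 < 1 + R := by linarith
    obtain ⟨hdiff, hgrow, hreal, hform⟩ := hF E R hE hR
    rw [hform ψ (Λ + r) hψ]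
    set M : ℝ := (K1 + KF) * (1 + R) ^ (n + 2) with hM
    have hM0 : 0 ≤ M := by positivity
    have h1R : (1 : ℝ) ≤ 1 + R := by linarith
    have hffr : ∀ x : ℝ, |x| ≤ Λ + r → |ffe E R x| ≤ K' * M * Real.exp (-(c' * R)) := by
      intro x hx
      have h1 := hP R M (fe E R) (by linarith) hM0 hdiff ?_ ?_ x hx
      · rw [hreal x, Complex.norm_real, Real.norm_eq_abs] at h1
        exact h1
      · intro z
        refine (hgrow z).trans ?_
        have h2 : KF * (1 + R) ^ 2 ≤ M := by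
          rw [hM]
          apply mul_le_mul (by linarith) _ (by positivity) (by positivity)
          exact pow_le_pow_right₀ h1R (by omega)
        gcongr
      · intro y hy
        rw [hreal y, Complex.norm_real, Real.norm_eq_abs]
        refine (hS E R hE hG hR hHole y hy).trans ?_
        have h2 : K1 * (1 + R) ^ n ≤ M := by
          rw [hM]
          apply mul_le_mul (by linarith) _ (by positivity) (by positivity)
          exact pow_le_pow_right₀ h1R (by omega)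
        gcongr
    have hI : |∫ ξ : ℝ, ψ ξ * ffe E R ξ| ≤ B * (K' * M * Real.exp (-(c' * R))) := by
      rw [hB, ← integral_mul_const, ← Real.norm_eq_abs]
      apply norm_integral_le_of_norm_le (hψi.abs.mul_const _)
      refine Filter.Eventually.of_forall fun ξ => ?_
      rw [Real.norm_eq_abs, abs_mul]
      rcases le_or_gt |ξ| (Λ + r) with h | h
      · exact mul_le_mul_of_nonneg_left (hffr ξ h) (abs_nonneg _)
      · rw [hμ ξ (by linarith)]
        simp
    refine hI.trans (le_of_eq ?_)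
    rw [hM]
    ring
  have hb : Tendsto (fun R : ℝ =>
      B * (K' * (K1 + KF)) * ((1 + R) ^ (n + 2) * Real.exp (-(c' * R)))) atTop (𝓝 0) :=
    tend_exp (n + 2) c' (B * (K' * (K1 + KF))) hc'
  by_contra hne
  set I := ∫ u in Ioi (0 : ℝ), ct ψ u * E u with hIdef
  have hIpos : 0 < |I| / 2 := by
    have : 0 < |I| := abs_pos.2 hne
    linarith
  have e1 := (Metric.tendsto_nhds.1 hlim) _ hIpos
  have e2 := (Metric.tendsto_nhds.1 hb) _ hIpos
  obtain ⟨A, hA⟩ := Filter.eventually_atTop.1 (e1.and e2)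
  obtain ⟨R, hAR, hHole⟩ := hH (max A 1)
  have hR1 : 1 ≤ R := le_trans (le_max_right _ _) hAR
  obtain ⟨g1, g2⟩ := hA R (le_trans (le_max_left _ _) hAR)
  rw [Real.dist_eq] at g1 g2
  have g3 := hbd R hR1 hHole
  rw [sub_zero] at g2
  have g4 := lt_of_le_of_lt (le_trans g3 (le_abs_self _)) g2
  have g5 : |I| ≤ |(∫ u in (0 : ℝ)..R, ct ψ u * E u) - I| + |∫ u in (0 : ℝ)..R, ct ψ u * E u| := by
    have := abs_sub (∫ u in (0 : ℝ)..R, ct ψ u * E u) ((∫ u in (0 : ℝ)..R, ct ψ u * E u) - I)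
    rw [sub_sub_cancel] at this
    linarith
  linarith

end Pool.Agent.W460.SW
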